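import Pool.Agent.H20.RCC.Stmts

/-!
Board rcc (MP_a315fd_nt), row RES (helper52): from the check of the closure to the new strays.
-/

set_option autoImplicit false

namespace Pool.RCC

namespace RESAux

lemma mem_iff (x : ℕ) (l : List ℕ) : mem x l = true ↔ x ∈ l := by
  induction l with
  | nil => simp [mem]
  | cons y t ih =>
    rw [mem, List.mem_cons]
    by_cases h : x = y
    · subst h
      simp
    · have : Nat.beq x y = false := by
        cases hb : Nat.beq x y
        · rfl
        · exact absurd (Nat.eq_of_beq_eq_true hb) h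
      rw [this]
      simp [h, ih]

lemma enc01 (g : ℕ) (hg : g ≤ 1) : enc (fun d => List.count d [g]) = g := by
  interval_cases g
  · decide
  · decide

lemma cnt4 (d g C B A : ℕ) : List.count d [g, C, B, A] =
    List.count d [g] + (if d = C then 1 else 0) + (if d = B then 1 else 0)
      + (if d = A then 1 else 0) := by
  simp only [List.count_cons, List.count_nil, beq_iff_eq, eq_comm (a := d)]
  omega

end RESAux

theorem RES_thm (hSND : SNDStmt) (hHLP : HLPStmt) (hZNP : ZNPStmt) (hENC : ENCStmt)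
    (hSAD : SADStmt) (hCLR : CLRStmt) (hCDX : CDXStmt) (hAR : ARStmt) : RESStmt := by
  intro k δ a I S v hOK hk hδ hMt hI
  have hk8 : k ≤ 8 := hOK.1
  obtain ⟨hHs, hLs, hHr, hLr, hcnt, -⟩ := hHLP k v hOK hk
  obtain ⟨-, -, -, hAR4⟩ := hAR
  have hZ17 : ∀ s ∈ Z k v, s ≤ 17 :=
    (hZNP k (Hi k v) (Lw k v)).2 hk8 (fun h hh => (hHr h hh).2) (fun l hl => (hLr l hl).2)
  have hZ18 : ∀ s ∈ Z k v, s ≤ 18 := fun s hs => le_trans (hZ17 s hs) (by norm_num)
  have hcR : cR k v ≤ 1 := hAR4 0 (Z k v) (by norm_num) hZ18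
  -- carries
  have hc1 : c1 k (cR k v) ≤ 1 := by unfold c1; omega
  have hc2 : c2 k δ (cR k v) ≤ 1 := by unfold c2; omega
  have hc3 : c3 k δ (cR k v) ≤ 1 := by unfold c3; omega
  set g := c3 k δ (cR k v) with hg
  have hg0 : co g (Z k v).reverse ≤ 1 :=
    hAR4 g _ hc3 (fun s hs => hZ18 s (List.mem_reverse.mp hs))
  -- unpack the check
  unfold okI at hI
  rw [Bool.and_eq_true, Bool.and_eq_true, RESAux.mem_iff, RESAux.mem_iff, List.all_eq_true] at hI
  obtain ⟨⟨hs0, hs1⟩, hall⟩ := hI
  have hcl : ∀ X ∈ I, ∀ Y ∈ nxt k X, Y ∈ I := by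
    intro X hX Y hY
    have h1 := hall X hX
    unfold okX at h1
    rw [Bool.and_eq_true, List.all_eq_true] at h1
    exact (RESAux.mem_iff _ _).mp (h1.1 Y hY)
  have hstart : cd a (enc (fun d => List.count d [co g (Z k v).reverse])) 0
      (co g (zn k (Hi k v) (Lw k v)).reverse) ∈ I := by
    rw [RESAux.enc01 _ hg0]
    change cd a (co g (Z k v).reverse) 0 (co g (Z k v).reverse) ∈ I
    generalize co g (Z k v).reverse = e at hg0 ⊢
    interval_cases e
    · exact hs0
    · exact hs1
  have hMt' : Mt a (fun d => (Hi k v ++ Lw k v).count d) := by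
    have : (fun d => (Hi k v ++ Lw k v).count d) = v := funext hcnt
    rw [this]
    exact hMt
  obtain ⟨a', hMa', hXI⟩ := hSND k I hk hk8 hcl (Hi k v) (Lw k v) hHs hLs hHr hLr a 0 g
    (fun d => List.count d [co g (Z k v).reverse]) hMt' (by norm_num) hc3 hstart
  change cd a' (enc (fun d => List.count d [co g (Z k v).reverse] + (ad 0 (Z k v)).count d
    + (ad g (Z k v).reverse).count d)) (cR k v) g ∈ I at hXI
  set F : ℕ → ℕ := fun d => List.count d [co g (Z k v).reverse] + (ad 0 (Z k v)).count d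
    + (ad g (Z k v).reverse).count d with hF
  have ha' : a' < 262144 := by
    have := hMa'.1
    norm_num at this
    exact this
  obtain ⟨hd1, hd2, hd3, hd4⟩ := hCDX a' (enc F) (cR k v) g ha' (hENC F).1 hcR hc3
  have hfin : fin9 a' = true := (hENC F).2.2.2.1 a' hMa'
  have h1 := hall _ hXI
  unfold okX at h1
  rw [Bool.and_eq_true] at h1
  have h2 := h1.2
  rw [hd1, hd3, hd4, hfin] at h2
  simp only [← hg, Bool.not_true, Bool.false_or, decide_true, Bool.or_eq_true,
    Bool.and_eq_true, decide_eq_true_eq, RESAux.mem_iff] at h2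
  rcases h2 with ⟨⟨hk4, hδ1⟩, hc⟩ | h3
  · left
    refine ⟨hk4, hδ1, ?_⟩
    rw [hk4] at hc
    exact hc
  · right
    have hres : res k δ (cd a' (enc F) (cR k v) g) = enc (stp k δ v) := by
      unfold res
      rw [hd3, hd2]
      have hnk : nk k δ ≤ 8 := by unfold nk; omega
      have hlo : 1 ≤ lo (nk k δ) ∧ lo (nk k δ) ≤ 9 := by
        unfold lo
        split_ifs with h0
        · norm_num
        · omega
      rw [hSAD _ _ (by omega), hSAD _ _ (by omega), hSAD _ _ (by omega),
        hCLR _ _ (by omega) (by omega), hCLR _ _ hlo.1 hlo.2]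
      apply (hENC _).2.2.2.2
      intro d hd1' hd9
      congr 1
      have hk0 : k ≠ 0 := by omega
      unfold stp sd
      rw [if_neg hk0]
      by_cases e1 : d = lo (nk k δ)
      · simp [e1]
      · by_cases e2 : d = nk k δ + 1
        · simp [e2]
        · have hsd : d ≠ 0 ∧ d ≤ 9 ∧ d ≠ lo (nk k δ) ∧ d ≠ nk k δ + 1 := ⟨by omega, hd9, e1, e2⟩
          rw [if_pos hsd, if_neg e1, if_neg e2]
          unfold outs
          rw [List.count_append, List.count_append, RESAux.cnt4]
          simp only [hF, ← hg]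
          omega
    rw [← hres]
    exact h3

end Pool.RCC
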